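import Pool.Agent.TH836.NS.Defs

/-!
# The core theorem from its three ingredients
(job NC-CORE of helper836, written by helper113)
-/

namespace Pool.Agent.TH836.NS

open Filter Topology Pool.Agent.TH176.Nag Pool.Agent.TH880.NB

namespace CoreN

/-- a slope close to `τ` with a large denominator -/
theorem exists_slope {τ : ℝ} (h0 : 0 ≤ τ) (h1 : τ < 1) (Q : ℝ) :
    ∃ p1 p2 : ℕ, 1 ≤ p1 ∧ 1 ≤ p2 ∧ Nat.Coprime p1 p2 ∧ Q ≤ (p1 : ℝ) + p2 ∧
      |(p1 : ℝ) - τ * ((p1 : ℝ) + p2)| ≤ 1 := by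
  obtain ⟨q, hq1, hq⟩ := Nat.exists_infinite_primes (max 2 ⌈Q⌉₊)
  have hq2 : 2 ≤ q := (le_max_left _ _).trans hq1
  have hQ : Q ≤ (q : ℝ) := (Nat.le_ceil Q).trans (by exact_mod_cast (le_max_right _ _).trans hq1)
  have hq0 : (0 : ℝ) < q := by
    have : 0 < q := by omega
    exact_mod_cast this
  have hfl : ⌊τ * q⌋₊ < q := by
    rw [Nat.floor_lt (by positivity)]
    calc τ * q < 1 * q := mul_lt_mul_of_pos_right h1 hq0
      _ = q := one_mul _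
  obtain ⟨p, hp⟩ : ∃ p : ℕ, p = max 1 ⌊τ * q⌋₊ := ⟨_, rfl⟩
  have hp1 : 1 ≤ p := by rw [hp]; exact le_max_left _ _
  have hpq : p < q := by
    rw [hp]
    exact max_lt (by omega) hfl
  have hsum : (p : ℝ) + ((q - p : ℕ) : ℝ) = q := by
    rw [Nat.cast_sub hpq.le]
    ring
  refine ⟨p, q - p, hp1, by omega, ?_, ?_, ?_⟩
  · rw [Nat.coprime_sub_self_right hpq.le]
    exact ((Nat.Prime.coprime_iff_not_dvd hq).2 fun h => by
      have := Nat.le_of_dvd (by omega) h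
      omega).symm
  · rw [hsum]
    exact hQ
  · rw [hsum]
    have hfl1 : (⌊τ * q⌋₊ : ℝ) ≤ τ * q := Nat.floor_le (by positivity)
    have hfl2 : τ * q < ⌊τ * q⌋₊ + 1 := Nat.lt_floor_add_one _
    have hpos : 0 ≤ τ * q := by positivity
    rw [abs_le]
    rcases le_or_gt 1 ⌊τ * q⌋₊ with h | h
    · have : p = ⌊τ * q⌋₊ := by rw [hp]; exact max_eq_right h
      rw [this]
      constructor <;> linarith
    · have h3 : ⌊τ * q⌋₊ = 0 := by omega
      have : p = 1 := by rw [hp, h3]; rfl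
      rw [this]
      rw [h3] at hfl2
      push_cast at hfl2 ⊢
      constructor <;> linarith

/-- the inequalities for one exponent -/
theorem ineqs {κ D μ τ η E d J S q p1 p2 i α : ℝ} (hκ : 0 < κ) (hη : 0 < η) (hq : 0 < q)
    (hE : 0 ≤ E) (hd0 : 0 ≤ d)
    (hd : κ * d = κ * E - D * J) (hτ : D * τ = μ) (hp : p1 + p2 = q)
    (he : |p1 - τ * q| ≤ 1) (hqη : 2 * κ / η ≤ q) (hdE : d ≤ E)
    (hα : α = -(κ * E * τ) + 2 * η * E) (hS : S ≤ κ * E - 4 * η * E)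
    (hl : α + μ * J ≤ i) (hr : i ≤ α + S - (D - μ) * J) :
    -(κ * d * (p1 / q)) + η * d ≤ i ∧ i ≤ κ * d * (p2 / q) - η * d := by
  obtain ⟨e, he'⟩ : ∃ e, e = p1 - τ * q := ⟨_, rfl⟩
  rw [← he'] at he
  have h1 : p1 / q = τ + e / q := by
    rw [he']
    field_simp
    ring
  have h2 : p2 / q = 1 - p1 / q := by
    rw [eq_sub_iff_add_eq, ← add_div, add_comm, hp, div_self hq.ne']
  have h3 : |κ * d * (e / q)| ≤ η * E / 2 := by
    rw [abs_mul, abs_div, abs_of_pos hq, abs_of_nonneg (mul_nonneg hκ.le hd0)]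
    have h4 : κ * d * (|e| / q) ≤ κ * E * (1 / q) := by
      apply mul_le_mul
      · exact mul_le_mul_of_nonneg_left hdE hκ.le
      · gcongr
      · positivity
      · positivity
    have h5 : κ * (1 / q) ≤ η / 2 := by
      rw [div_le_iff₀ hη] at hqη
      rw [mul_one_div, div_le_div_iff₀ hq (by norm_num)]
      linarith
    calc κ * d * (|e| / q) ≤ κ * E * (1 / q) := h4
      _ = κ * (1 / q) * E := by ring
      _ ≤ η / 2 * E := mul_le_mul_of_nonneg_right h5 hE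
      _ = η * E / 2 := by ring
  rw [abs_le] at h3
  have h6 : κ * d * τ = κ * E * τ - μ * J := by
    rw [hd, ← hτ]
    ring
  have h7 : κ * d * (p1 / q) = κ * E * τ - μ * J + κ * d * (e / q) := by
    rw [h1, mul_add, h6]
  have h8 : κ * d * (p2 / q) = κ * E - D * J - (κ * E * τ - μ * J + κ * d * (e / q)) := by
    rw [h2, mul_sub, mul_one, h7, hd]
  have h9 : η * d ≤ η * E := mul_le_mul_of_nonneg_left hdE hη.le
  have h10 : 0 ≤ η * E := by positivity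
  rw [h7, h8]
  obtain ⟨h3a, h3b⟩ := h3
  constructor <;> nlinarith

end CoreN

/-- **the core theorem** from the achieved exponents, the sections on the tube and the triangles -/
theorem core_of {F : Type} [Field F] {k : ℕ} {δ : ℝ} (N : Nodal F k δ)
    (hach : ∀ {η : ℝ}, 0 < η → ∃ d0 : ℕ, ∀ d : ℕ, d0 ≤ d →
      ∀ p1 p2 : ℕ, 1 ≤ p1 → 1 ≤ p2 → Nat.Coprime p1 p2 → k * δ * d + 1 < (p1 : ℝ) + p2 →
      ∀ i : ℤ, -(k * δ * d * (p1 / ((p1 : ℝ) + p2))) + η * d ≤ i →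
        (i : ℝ) ≤ k * δ * d * (p2 / ((p1 : ℝ) + p2)) - η * d → Ach N d p1 p2 i)
    (hsec : ∀ {E j p1 p2 : ℕ} (h1 : 1 ≤ p1) (h2 : 1 ≤ p2) {i : ℤ},
      k * j ≤ E → Ach N (E - k * j) p1 p2 i → ∃ σ0 : ℕ, ∀ σ : ℕ, σ0 ≤ σ →
      ∃ g : Polynomial (PP F), (∀ c, g.coeff c ∈ N.V E) ∧ ∃ (ω : ℕ) (r : PowerSeries (Lau F)),
        Val σ h1 h2 g = PowerSeries.X ^ ω *
          (PowerSeries.C (zY (i, (j : ℤ)) 1) + PowerSeries.X * r))
    (hPA : ∀ {n : ℕ}, 1 ≤ n → ∀ {D : ℝ}, 0 < D → D ≤ n → ∀ v : ℤ,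
      PA n (√(n * D) - v) (D - (√(n * D) - v)))
    (hδ : 1 ≤ (k : ℝ) ^ 2 * δ) {n : ℕ} (hn : (k : ℝ) ^ 2 * δ ≤ n)
    {ρ : ℝ} (hρ : 1 < ρ) : ∃ s0 : ℕ, ∀ s : ℕ, s0 ≤ s → ∀ E : ℕ, ρ * (√n * s) ≤ √δ * E →
      LC N n E s := by
  classical
  have hδ0 : 0 < δ := N.δ_pos
  have hk1 : (1 : ℝ) ≤ k := by exact_mod_cast N.k_pos
  have hk0 : (0 : ℝ) < k := by linarith
  obtain ⟨D, hD⟩ : ∃ D : ℝ, D = (k : ℝ) ^ 2 * δ := ⟨_, rfl⟩
  obtain ⟨κ, hκ⟩ : ∃ κ : ℝ, κ = (k : ℝ) * δ := ⟨_, rfl⟩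
  have hDκ : D = κ * k := by rw [hD, hκ]; ring
  rw [← hD] at hδ hn
  have hD0 : 0 < D := by linarith
  have hκ0 : 0 < κ := by rw [hκ]; positivity
  have hn1' : (1 : ℝ) ≤ n := hδ.trans hn
  have hn1 : 1 ≤ n := by exact_mod_cast hn1'
  have hsn : 1 ≤ √(n : ℝ) := by
    rw [Real.one_le_sqrt]
    exact hn1'
  have hsδ : 0 < √δ := Real.sqrt_pos.2 hδ0
  have hsδ2 : √δ * √δ = δ := Real.mul_self_sqrt hδ0.le
  have hsD : √D = k * √δ := by
    rw [hD, Real.sqrt_mul (by positivity), Real.sqrt_sq hk0.le]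
  have hρ0 : 0 < ρ := by linarith
  -- the triangle
  obtain ⟨μ, hμ⟩ : ∃ μ : ℝ, μ = √(n * D) - (⌊√(n * D)⌋ : ℤ) := ⟨_, rfl⟩
  have hμ0 : 0 ≤ μ := by
    have := Int.floor_le (√(n * D))
    linarith
  have hμ1 : μ < 1 := by
    have := Int.lt_floor_add_one (√(n * D))
    linarith
  have hAS : AS n (√n * √D) μ (D - μ) := by
    have h := hPA hn1 hD0 hn ⌊√(n * D)⌋
    rw [← hμ] at h
    unfold PA at h
    rwa [add_sub_cancel] at h
  obtain ⟨τ, hτ⟩ : ∃ τ : ℝ, τ = μ / D := ⟨_, rfl⟩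
  have hτ0 : 0 ≤ τ := by rw [hτ]; positivity
  have hτ1 : τ < 1 := by
    rw [hτ, div_lt_one hD0]
    linarith
  have hDτ : D * τ = μ := by
    rw [hτ]
    field_simp
  -- the constants
  obtain ⟨η, hη⟩ : ∃ η : ℝ, η = κ * (1 - 1 / ρ) / 5 := ⟨_, rfl⟩
  have hρ1 : 1 / ρ < 1 := by
    rw [div_lt_one hρ0]
    exact hρ
  have hη0 : 0 < η := by
    rw [hη]
    have : 0 < 1 - 1 / ρ := by linarith
    positivity
  have hη5 : κ / ρ = κ - 5 * η := by
    rw [hη]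
    ring
  obtain ⟨s1, hs1⟩ := hAS (η / √δ) (by positivity)
  obtain ⟨d0, hd0⟩ := hach hη0
  refine ⟨max s1 ⌈√δ * (d0 * κ / (4 * η))⌉₊, fun s hs E hE => ?_⟩
  have hs1' := hs1 s ((le_max_left _ _).trans hs)
  have hs2 : √δ * (d0 * κ / (4 * η)) ≤ s :=
    (Nat.le_ceil _).trans (by exact_mod_cast (le_max_right _ _).trans hs)
  have hs0 : (0 : ℝ) ≤ s := Nat.cast_nonneg s
  have hE0 : (0 : ℝ) ≤ E := Nat.cast_nonneg E
  have hsE : (s : ℝ) ≤ √δ * E := by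
    have h1 : (s : ℝ) ≤ √n * s := by nlinarith
    have h2 : √n * s ≤ ρ * (√n * s) := by
      have : 0 ≤ √n * s := by positivity
      nlinarith
    linarith
  have hEd : (d0 : ℝ) * κ ≤ 4 * η * E := by
    have h1 : √δ * (d0 * κ / (4 * η)) ≤ √δ * E := hs2.trans hsE
    have h2 := le_of_mul_le_mul_left h1 hsδ
    rw [div_le_iff₀ (by positivity)] at h2
    linarith
  have hS : (√n * √D + η / √δ) * s ≤ κ * E - 4 * η * E := by
    have h1 : √n * √D * s ≤ κ / ρ * E := by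
      rw [hsD]
      have h2 : √n * (k * √δ) * s * ρ ≤ κ * E := by
        calc √n * (k * √δ) * s * ρ = k * √δ * (ρ * (√n * s)) := by ring
          _ ≤ k * √δ * (√δ * E) := mul_le_mul_of_nonneg_left hE (by positivity)
          _ = k * (√δ * √δ) * E := by ring
          _ = κ * E := by rw [hsδ2, hκ]
      have h3 : κ / ρ * E = κ * E / ρ := by ring
      rw [h3, le_div_iff₀ hρ0]
      exact h2
    have h2 : η / √δ * s ≤ η * E := by
      calc η / √δ * s ≤ η / √δ * (√δ * E) := mul_le_mul_of_nonneg_left hsE (by positivity)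
        _ = η * E := by field_simp
    rw [hη5] at h1
    nlinarith
  obtain ⟨p1, p2, h1, h2, hcop, hq, hclose⟩ :=
    CoreN.exists_slope hτ0 hτ1 (κ * E + 2 + 2 * κ / η)
  have hqpos : (0 : ℝ) < (p1 : ℝ) + p2 := by
    have : 0 < p1 + p2 := by omega
    exact_mod_cast this
  have hκη : 0 < 2 * κ / η := by positivity
  have hκE : 0 ≤ κ * E := by positivity
  obtain ⟨α, hα⟩ : ∃ α : ℝ, α = -(κ * E * τ) + 2 * η * E := ⟨_, rfl⟩
  obtain ⟨T, hT, hTc, hTe⟩ := hs1' α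
  have key : ∀ m ∈ T, ∃ σ0 : ℕ, ∀ σ : ℕ, σ0 ≤ σ →
      ∃ g : Polynomial (PP F), (∀ c, g.coeff c ∈ N.V E) ∧ ∃ (ω : ℕ) (r : PowerSeries (Lau F)),
        Val σ h1 h2 g = PowerSeries.X ^ ω * (PowerSeries.C (zY m 1) + PowerSeries.X * r) := by
    rintro ⟨i, j⟩ hm
    obtain ⟨hj, hl, hr⟩ := hT (Finset.mem_coe.2 hm)
    simp only at hj hl hr
    lift j to ℕ using hj
    have hJ0 : (0 : ℝ) ≤ j := Nat.cast_nonneg j
    push_cast at hl hr
    have hDJ : D * j ≤ κ * E - 4 * η * E := by linarith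
    have hkj : κ * (k * j + d0) ≤ κ * E := by
      have : D * j = κ * (k * j) := by rw [hDκ]; ring
      linarith
    have hkj' : (k : ℝ) * j + d0 ≤ E := le_of_mul_le_mul_left hkj hκ0
    have hkjn : k * j + d0 ≤ E := by exact_mod_cast hkj'
    have hkE : k * j ≤ E := by omega
    have hcast : ((E - k * j : ℕ) : ℝ) = E - k * j := by
      rw [Nat.cast_sub hkE]
      push_cast
      ring
    have hdE : ((E - k * j : ℕ) : ℝ) ≤ E := by
      exact_mod_cast Nat.sub_le _ _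
    have hdk : κ * ((E - k * j : ℕ) : ℝ) = κ * E - D * j := by
      rw [hcast, hDκ]
      ring
    obtain ⟨hi1, hi2⟩ := CoreN.ineqs hκ0 hη0 hqpos hE0 (Nat.cast_nonneg (E - k * j)) hdk
      hDτ rfl hclose (by linarith) hdE hα hS hl hr
    refine hsec h1 h2 hkE (hd0 (E - k * j) (by omega) p1 p2 h1 h2 hcop ?_ i ?_ ?_)
    · rw [← hκ]
      have : κ * ((E - k * j : ℕ) : ℝ) ≤ κ * E := mul_le_mul_of_nonneg_left hdE hκ0.le
      linarith
    · rw [← hκ]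
      exact hi1
    · rw [← hκ]
      exact hi2
  choose! σf hσf using key
  refine ⟨p1, p2, max 1 (T.sup σf), h1, h2, T, le_max_left _ _, hTc, hTe, fun m hm => ?_⟩
  exact hσf m hm _ ((Finset.le_sup hm).trans (le_max_right _ _))

end Pool.Agent.TH836.NS
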